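import Pool.Agent.Results.MP_fe322e_ag.NotGroebner

/-! Abstract form of the failure of the Groebner basis property. -/

set_option autoImplicit false

open MvPolynomial
open scoped MonomialOrder

namespace Pool.Agent.Y825.KL

open Pool.Agent.Results.MP_fe322e_ag.NotGroebner

variable {σ : Type*} {k : Type*} [Field k]

/-- the first determinant -/
noncomputable def P1 (k : Type*) [Field k] {σ : Type*} (a : Fin 10 → σ) : MvPolynomial σ k :=
  - (X (a 2) * X (a 5) * X (a 7)) +
    (X (a 0) * X (a 9) + X (a 1) * X (a 8) + X (a 2) * X (a 6) + X (a 3) * X (a 7) - X (a 4))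

/-- the second determinant -/
noncomputable def P2 (k : Type*) [Field k] {σ : Type*} (a : Fin 10 → σ) : MvPolynomial σ k :=
  X (a 2) * X (a 5) * X (a 7) - (X (a 2) * X (a 6) + X (a 3) * X (a 7) - X (a 4))

/-- The core argument: all leading terms vanish at a point where the leading term of the sum of
the two determinants does not. -/
theorem core_abs (m : MonomialOrder σ) (hm : Graded m) (D : Set (MvPolynomial σ k)) (N : Set σ)
    (a : Fin 10 → σ) (ha : Function.Injective a) (hN : ∀ i, a i ∉ N)
    (hD1 : P1 k a ∈ D) (hD2 : P2 k a ∈ D)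
    (hD : ∀ g ∈ D, g = P1 k a ∨ g = P2 k a ∨ ∀ d ∈ g.support, ∃ w ∈ N, d w ≠ 0) :
    ¬ IsGroebnerBasis m D (Ideal.span D) := by
  classical
  rintro ⟨-, hspan⟩
  have hne : ∀ i j : Fin 10, i ≠ j → a i ≠ a j := fun i j h => ha.ne h
  have hmon : ∀ c : k, (monomial (Finsupp.single (a 2) 1 + Finsupp.single (a 5) 1 +
      Finsupp.single (a 7) 1) c : MvPolynomial σ k) = C c * (X (a 2) * X (a 5) * X (a 7)) := by
    intro c
    simp only [X, monomial_mul, C_mul_monomial, mul_one]
  have hdeg : (Finsupp.single (a 2) 1 + Finsupp.single (a 5) 1 + Finsupp.single (a 7) 1 :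
      σ →₀ ℕ).degree = 3 := by
    simp [map_add]
  have t2 : ∀ i j : σ, (X i * X j : MvPolynomial σ k).totalDegree ≤ 2 := by
    intro i j
    refine (totalDegree_mul _ _).trans ?_
    simp [totalDegree_X]
  have t1 : ∀ i : σ, (X i : MvPolynomial σ k).totalDegree ≤ 2 := by
    intro i; simp [totalDegree_X]
  have tadd : ∀ f g : MvPolynomial σ k, f.totalDegree ≤ 2 → g.totalDegree ≤ 2 →
      (f + g).totalDegree ≤ 2 := fun f g hf hg => (totalDegree_add f g).trans (max_le hf hg)
  have tsub : ∀ f g : MvPolynomial σ k, f.totalDegree ≤ 2 → g.totalDegree ≤ 2 →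
      (f - g).totalDegree ≤ 2 := fun f g hf hg => (totalDegree_sub f g).trans (max_le hf hg)
  let φ : MvPolynomial σ k →+* k := eval fun w => if w = a 2 ∨ w ∈ N then 0 else 1
  have hLT : ∀ g ∈ D, φ (m.leadingTerm g) = 0 := by
    intro g hg
    rcases hD g hg with rfl | rfl | hg'
    · have e : P1 k a = monomial (Finsupp.single (a 2) 1 + Finsupp.single (a 5) 1 +
          Finsupp.single (a 7) 1) (-1 : k) + (X (a 0) * X (a 9) + X (a 1) * X (a 8) +
          X (a 2) * X (a 6) + X (a 3) * X (a 7) - X (a 4)) := by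
        rw [hmon, P1]; simp
      rw [e, leadingTerm_of k hm _ (by simp) _ ?_, hmon]
      · simp [φ]
      · rw [hdeg]
        refine lt_of_le_of_lt (b := 2) ?_ (by norm_num)
        exact tsub _ _ (tadd _ _ (tadd _ _ (tadd _ _ (t2 _ _) (t2 _ _)) (t2 _ _)) (t2 _ _)) (t1 _)
    · have e : P2 k a = monomial (Finsupp.single (a 2) 1 + Finsupp.single (a 5) 1 +
          Finsupp.single (a 7) 1) (1 : k) + - (X (a 2) * X (a 6) + X (a 3) * X (a 7) -
          X (a 4)) := by
        rw [hmon, P2]; simp [sub_eq_add_neg]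
      rw [e, leadingTerm_of k hm _ (by simp) _ ?_, hmon]
      · simp [φ]
      · rw [hdeg]
        refine lt_of_le_of_lt (b := 2) ?_ (by norm_num)
        rw [totalDegree_neg]
        exact tsub _ _ (tadd _ _ (t2 _ _) (t2 _ _)) (t1 _)
    · by_cases h0 : g = 0
      · subst h0
        simp [φ]
      · obtain ⟨w, hw, hdw⟩ := hg' _ (m.degree_mem_support h0)
        rw [MonomialOrder.leadingTerm]
        simp only [φ, eval_monomial, Finsupp.prod]
        rw [Finset.prod_eq_zero (i := w) (Finsupp.mem_support_iff.mpr hdw), mul_zero]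
        rw [if_pos (Or.inr hw), zero_pow hdw]
  -- the sum of the two determinants
  set f : MvPolynomial σ k := X (a 0) * X (a 9) + X (a 1) * X (a 8) with hfdef
  have hf : f ∈ Ideal.span D := by
    have e : f = P1 k a + P2 k a := by rw [hfdef, P1, P2]; ring
    rw [e]
    exact Ideal.add_mem _ (Ideal.subset_span hD1) (Ideal.subset_span hD2)
  have hfs : m.leadingTerm f ∈ Ideal.span (m.leadingTerm '' D) := by
    rw [hspan]
    exact Ideal.subset_span ⟨_, hf, rfl⟩
  have hφ : ∀ t ∈ Ideal.span (m.leadingTerm '' D), φ t = 0 := by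
    intro t ht
    have hle : Ideal.span (m.leadingTerm '' D) ≤ RingHom.ker φ := by
      rw [Ideal.span_le]
      rintro _ ⟨g, hg, rfl⟩
      rw [SetLike.mem_coe, RingHom.mem_ker, hLT g hg]
    exact hle ht
  have h0 := hφ _ hfs
  have hfm : f = monomial (Finsupp.single (a 0) 1 + Finsupp.single (a 9) 1) 1 +
      monomial (Finsupp.single (a 1) 1 + Finsupp.single (a 8) 1) 1 := by
    rw [hfdef]; simp only [X, monomial_mul, mul_one]
  have hf0 : f ≠ 0 := by
    intro h
    have := congrArg (eval fun w : σ => if w = a 0 ∨ w = a 9 then (1 : k) else 0) h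
    rw [hfdef] at this
    simp [hne 1 0 (by decide), hne 1 9 (by decide)] at this
  have hsup : m.degree f ∈ f.support := m.degree_mem_support hf0
  have hsup2 : m.degree f = Finsupp.single (a 0) 1 + Finsupp.single (a 9) 1 ∨
      m.degree f = Finsupp.single (a 1) 1 + Finsupp.single (a 8) 1 := by
    rw [mem_support_iff, hfm, coeff_add, coeff_monomial, coeff_monomial, ← hfm] at hsup
    by_contra hcon
    push Not at hcon
    rw [if_neg (Ne.symm hcon.1), if_neg (Ne.symm hcon.2)] at hsup
    simp at hsup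
  have hlc : m.leadingCoeff f ≠ 0 := m.leadingCoeff_ne_zero_iff.mpr hf0
  apply hlc
  rw [MonomialOrder.leadingTerm] at h0
  have hm2 : ∀ (i j : Fin 10) (c : k), i ≠ 2 → j ≠ 2 →
      φ (monomial (Finsupp.single (a i) 1 + Finsupp.single (a j) 1) c) = c := by
    intro i j c hi hj
    have e : (monomial (Finsupp.single (a i) 1 + Finsupp.single (a j) 1) c :
        MvPolynomial σ k) = C c * (X (a i) * X (a j)) := by
      simp only [X, monomial_mul, C_mul_monomial, mul_one]
    have hi' : ¬ (a i = a 2 ∨ a i ∈ N) := by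
      rintro (h | h)
      · exact hi (ha h)
      · exact hN i h
    have hj' : ¬ (a j = a 2 ∨ a j ∈ N) := by
      rintro (h | h)
      · exact hj (ha h)
      · exact hN j h
    rw [e, map_mul, map_mul]
    simp only [φ, eval_C, eval_X, if_neg hi', if_neg hj', mul_one]
  rcases hsup2 with h | h
  · rw [h, hm2 0 9 _ (by decide) (by decide)] at h0
    exact h0
  · rw [h, hm2 1 8 _ (by decide) (by decide)] at h0
    exact h0

end Pool.Agent.Y825.KL
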