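import Pool.Agent.Y825.KL.Abs

/-! The example in `S_6` extended to `S_n`, `n ≥ 6`. -/

set_option autoImplicit false

open MvPolynomial
open scoped MonomialOrder

namespace Pool.Agent.Y825.KL

open Pool.Agent.Results.MP_fe322e_ag.NotGroebner

variable {n : ℕ} (h : 6 ≤ n)

/-- A permutation of the first six letters, fixing all others. -/
def ext6 (u : Equiv.Perm (Fin 6)) : Equiv.Perm (Fin n) where
  toFun i := if hi : i.val < 6 then Fin.castLE h (u ⟨i.val, hi⟩) else i
  invFun i := if hi : i.val < 6 then Fin.castLE h (u.symm ⟨i.val, hi⟩) else i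
  left_inv i := by
    by_cases hi : i.val < 6
    · simp only [hi, dif_pos]
      have : (Fin.castLE h (u ⟨i.val, hi⟩)).val < 6 := (u ⟨i.val, hi⟩).2
      simp only [this, dif_pos]
      have e : (⟨(Fin.castLE h (u ⟨i.val, hi⟩)).val, this⟩ : Fin 6) = u ⟨i.val, hi⟩ := rfl
      rw [e, Equiv.symm_apply_apply]
      rfl
    · simp only [hi, dif_neg, not_false_eq_true]
  right_inv i := by
    by_cases hi : i.val < 6
    · simp only [hi, dif_pos]
      have : (Fin.castLE h (u.symm ⟨i.val, hi⟩)).val < 6 := (u.symm ⟨i.val, hi⟩).2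
      simp only [this, dif_pos]
      have e : (⟨(Fin.castLE h (u.symm ⟨i.val, hi⟩)).val, this⟩ : Fin 6) =
        u.symm ⟨i.val, hi⟩ := rfl
      rw [e, Equiv.apply_symm_apply]
      rfl
    · simp only [hi, dif_neg, not_false_eq_true]

lemma ext6_cast (u : Equiv.Perm (Fin 6)) (i : Fin 6) :
    ext6 h u (Fin.castLE h i) = Fin.castLE h (u i) := by
  show (if hi : (Fin.castLE h i).val < 6 then _ else _) = _
  rw [dif_pos (show (Fin.castLE h i).val < 6 from i.2)]
  rfl

lemma ext6_symm_cast (u : Equiv.Perm (Fin 6)) (i : Fin 6) :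
    (ext6 h u).symm (Fin.castLE h i) = Fin.castLE h (u.symm i) := by
  show (if hi : (Fin.castLE h i).val < 6 then _ else _) = _
  rw [dif_pos (show (Fin.castLE h i).val < 6 from i.2)]
  rfl

lemma ext6_ge (u : Equiv.Perm (Fin 6)) (i : Fin n) (hi : 6 ≤ i.val) : ext6 h u i = i := by
  show (if hi : i.val < 6 then _ else _) = _
  rw [dif_neg (by omega)]

lemma ext6_symm_ge (u : Equiv.Perm (Fin 6)) (i : Fin n) (hi : 6 ≤ i.val) :
    (ext6 h u).symm i = i := by
  show (if hi : i.val < 6 then _ else _) = _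
  rw [dif_neg (by omega)]

lemma cast_of_lt (i : Fin n) (hi : i.val < 6) : ∃ i₀ : Fin 6, i = Fin.castLE h i₀ :=
  ⟨⟨i.val, hi⟩, rfl⟩

lemma ext6_mul_swap (u : Equiv.Perm (Fin 6)) (i j : Fin 6) :
    ext6 h (u * Equiv.swap i j) = ext6 h u * Equiv.swap (Fin.castLE h i) (Fin.castLE h j) := by
  ext x
  rw [Equiv.Perm.mul_apply]
  by_cases hx : x.val < 6
  · obtain ⟨x₀, rfl⟩ := cast_of_lt h x hx
    rw [ext6_cast, Equiv.Perm.mul_apply, (Fin.castLE_injective h).swap_apply, ext6_cast]
  · have h1 : x ≠ Fin.castLE h i := by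
      rintro rfl
      exact hx i.2
    have h2 : x ≠ Fin.castLE h j := by
      rintro rfl
      exact hx j.2
    rw [Equiv.swap_apply_of_ne_of_ne h1 h2, ext6_ge h _ x (by omega), ext6_ge h _ x (by omega)]

lemma bruhat_ext (u v : Equiv.Perm (Fin 6)) (huv : BruhatLE u v) :
    BruhatLE (ext6 h u) (ext6 h v) := by
  unfold BruhatLE at huv ⊢
  refine huv.lift (ext6 h) ?_
  rintro a b ⟨i, j, hij, hw, rfl⟩
  refine ⟨Fin.castLE h i, Fin.castLE h j, ?_, ?_, ext6_mul_swap h a i j⟩
  · exact hij
  · rw [ext6_cast, ext6_cast]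
    exact hw

lemma swRank_cast (v : Equiv.Perm (Fin 6)) (p q : Fin 6) :
    swRank (ext6 h v) (Fin.castLE h p) (Fin.castLE h q) = swRank v p q := by
  unfold swRank
  rw [← Finset.card_map (Fin.castLEEmb h)]
  congr 1
  ext j
  simp only [Finset.mem_filter, Finset.mem_univ, true_and, Finset.mem_map, Fin.castLEEmb_apply]
  constructor
  · rintro ⟨h1, h2⟩
    have hj : j.val < 6 := by
      have : j.val ≤ q.val := h1
      omega
    obtain ⟨j₀, rfl⟩ := cast_of_lt h j hj
    refine ⟨j₀, ⟨h1, ?_⟩, rfl⟩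
    rw [ext6_cast] at h2
    exact h2
  · rintro ⟨j₀, ⟨h1, h2⟩, rfl⟩
    refine ⟨h1, ?_⟩
    rw [ext6_cast]
    exact h2

lemma swRank_ge (v : Equiv.Perm (Fin 6)) (p q : Fin n) (hq : 6 ≤ q.val) :
    q.val + 1 ≤ swRank (ext6 h v) p q + p.val := by
  have h1 : (Finset.Icc p q).card ≤ swRank (ext6 h v) p q := by
    unfold swRank
    refine Finset.card_le_card_of_injOn (ext6 h v).symm ?_ (ext6 h v).symm.injective.injOn
    intro i hi
    simp only [Finset.coe_Icc, Set.mem_Icc] at hi
    simp only [Finset.coe_filter, Finset.mem_univ, true_and, Set.mem_ofPred_eq,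
      Equiv.apply_symm_apply]
    refine ⟨?_, hi.1⟩
    by_cases hi6 : i.val < 6
    · obtain ⟨i₀, rfl⟩ := cast_of_lt h i hi6
      rw [ext6_symm_cast]
      have : (v.symm i₀).val < 6 := (v.symm i₀).2
      exact Fin.le_def.mpr (by show (v.symm i₀).val ≤ q.val; omega)
    · rw [ext6_symm_ge h v i (by omega)]
      exact hi.2
  rw [Fin.card_Icc] at h1
  omega

/-- the old variables -/
def io (u : Equiv.Perm (Fin 6)) (w : Var u) : Var (ext6 h u) :=
  ⟨(Fin.castLE h w.1.1, Fin.castLE h w.1.2), by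
    rw [ext6_cast, ext6_symm_cast]
    exact w.2⟩

lemma io_inj (u : Equiv.Perm (Fin 6)) : Function.Injective (io h u) := by
  intro a b hab
  have h1 := congrArg (fun w : Var (ext6 h u) => w.1.1) hab
  have h2 := congrArg (fun w : Var (ext6 h u) => w.1.2) hab
  apply Subtype.ext
  exact Prod.ext (Fin.castLE_injective h h1) (Fin.castLE_injective h h2)

lemma Z_cast (k : Type*) [Field k] (u : Equiv.Perm (Fin 6)) (i j : Fin 6) :
    Z k (ext6 h u) (Fin.castLE h i) (Fin.castLE h j) = rename (io h u) (Z k u i j) := by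
  unfold Z
  simp only [Matrix.of_apply]
  by_cases h1 : i = u j
  · rw [if_pos h1, if_pos (by rw [ext6_cast, h1]), map_one]
  · rw [if_neg h1, if_neg (by
      rw [ext6_cast]
      exact fun h' => h1 (Fin.castLE_injective h h'))]
    by_cases h2 : u j < i ∧ j < u.symm i
    · have h3 : ext6 h u (Fin.castLE h j) < Fin.castLE h i ∧
          Fin.castLE h j < (ext6 h u).symm (Fin.castLE h i) := by
        rw [ext6_cast, ext6_symm_cast]
        exact h2
      rw [dif_pos h2, dif_pos h3, rename_X]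
      rfl
    · have h3 : ¬ (ext6 h u (Fin.castLE h j) < Fin.castLE h i ∧
          Fin.castLE h j < (ext6 h u).symm (Fin.castLE h i)) := by
        rw [ext6_cast, ext6_symm_cast]
        exact h2
      rw [dif_neg h2, dif_neg h3, map_zero]

/-- the new variables -/
def newVar (u : Equiv.Perm (Fin 6)) : Set (Var (ext6 h u)) := {w | 6 ≤ w.1.1.val}

lemma Z_new (k : Type*) [Field k] (u : Equiv.Perm (Fin 6)) (i j : Fin n) (hi : 6 ≤ i.val)
    (hj : j.val < i.val) :
    Z k (ext6 h u) i j ∈ Ideal.span (X '' newVar h u : Set (MvPolynomial (Var (ext6 h u)) k)) := by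
  have hlt : ext6 h u j < i := by
    by_cases h6 : j.val < 6
    · obtain ⟨j₀, rfl⟩ := cast_of_lt h j h6
      rw [ext6_cast]
      have : (u j₀).val < 6 := (u j₀).2
      exact Fin.lt_def.mpr (by show (u j₀).val < i.val; omega)
    · rw [ext6_ge h u j (by omega)]
      exact hj
  have h2 : ext6 h u j < i ∧ j < (ext6 h u).symm i := by
    refine ⟨hlt, ?_⟩
    rw [ext6_symm_ge h u i hi]
    exact hj
  unfold Z
  simp only [Matrix.of_apply]
  rw [if_neg hlt.ne', dif_pos h2]
  exact Ideal.subset_span ⟨_, hi, rfl⟩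

lemma det_new (k : Type*) [Field k] (u : Equiv.Perm (Fin 6)) {s : ℕ} (r c : Fin s → Fin n)
    (a : Fin s) (ha : 6 ≤ (r a).val) (hc : ∀ b, (c b).val < (r a).val) :
    ((Z k (ext6 h u)).submatrix r c).det ∈
      Ideal.span (X '' newVar h u : Set (MvPolynomial (Var (ext6 h u)) k)) := by
  rw [← Ideal.Quotient.eq_zero_iff_mem, RingHom.map_det]
  refine Matrix.det_eq_zero_of_row_eq_zero a fun b => ?_
  rw [RingHom.mapMatrix_apply, Matrix.map_apply, Matrix.submatrix_apply,
    Ideal.Quotient.eq_zero_iff_mem]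
  exact Z_new h k u _ _ ha (hc b)

/-- the ten variables -/
def av : Fin 10 → Var u₀ := ![v21, v31, v41, v51, v61, v52, v62, v63, v64, v65]

lemma av_inj : Function.Injective av := by decide

lemma rename_P1 (k : Type*) [Field k] : rename (io h u₀) (P1 k av) =
    P1 k (fun i => io h u₀ (av i)) := by
  simp [P1]

lemma rename_P2 (k : Type*) [Field k] : rename (io h u₀) (P2 k av) =
    P2 k (fun i => io h u₀ (av i)) := by
  simp [P2]

lemma rename_mem (k : Type*) [Field k] (u v : Equiv.Perm (Fin 6)) (g : MvPolynomial (Var u) k)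
    (hg : g ∈ definingDets k u v) :
    rename (io h u) g ∈ definingDets k (ext6 h u) (ext6 h v) := by
  obtain ⟨p, q, r, c, hr, hc, hpr, hcq, rfl⟩ := hg
  have e := swRank_cast h v p q
  have e1 : swRank (ext6 h v) (Fin.castLE h p) (Fin.castLE h q) + 1 = swRank v p q + 1 := by
    rw [e]
  refine ⟨Fin.castLE h p, Fin.castLE h q, fun a => Fin.castLE h (r (Fin.cast e1 a)),
    fun b => Fin.castLE h (c (Fin.cast e1 b)), ?_, ?_, ?_, ?_, ?_⟩
  · intro a b hab
    exact hr hab
  · intro a b hab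
    exact hc hab
  · intro a
    exact hpr _
  · intro b
    exact hcq _
  · rw [AlgHom.map_det]
    rw [← Matrix.det_submatrix_equiv_self (finCongr e1)]
    congr 1
    ext1 a b
    rw [Matrix.submatrix_apply, AlgHom.mapMatrix_apply, Matrix.map_apply, Matrix.submatrix_apply,
      Matrix.submatrix_apply, Z_cast]
    rfl

lemma mem_cases (k : Type*) [Field k] (u v : Equiv.Perm (Fin 6))
    (g : MvPolynomial (Var (ext6 h u)) k) (hg : g ∈ definingDets k (ext6 h u) (ext6 h v)) :
    (∃ g₀ ∈ definingDets k u v, g = rename (io h u) g₀) ∨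
      g ∈ Ideal.span (X '' newVar h u : Set (MvPolynomial (Var (ext6 h u)) k)) := by
  obtain ⟨p, q, r, c, hr, hc, hpr, hcq, rfl⟩ := hg
  by_cases hA : ∃ a, 6 ≤ (r a).val ∧ q.val < (r a).val
  · obtain ⟨a, h1, h2⟩ := hA
    right
    refine det_new h k u r c a h1 fun b => ?_
    have : (c b).val ≤ q.val := hcq b
    omega
  left
  push Not at hA
  have hq6 : q.val < 6 := by
    by_contra hcon
    have h1 := swRank_ge h v p q (by omega)
    have h2 := gap r hr (swRank (ext6 h v) p q) 0 (Fin.last _) (by simp)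
    have h3 : p.val ≤ (r 0).val := hpr 0
    have h4 : (r (Fin.last _)).val ≤ q.val := by
      by_cases h5 : 6 ≤ (r (Fin.last (swRank (ext6 h v) p q))).val
      · exact hA _ h5
      · omega
    omega
  have hr6 : ∀ a, (r a).val < 6 := by
    intro a
    by_contra hcon
    have := hA a (by omega)
    omega
  have hc6 : ∀ b, (c b).val < 6 := by
    intro b
    have : (c b).val ≤ q.val := hcq b
    omega
  have hp6 : p.val < 6 := by
    have h1 : p.val ≤ (r 0).val := hpr 0
    have h2 := hr6 0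
    omega
  obtain ⟨p₀, rfl⟩ := cast_of_lt h p hp6
  obtain ⟨q₀, rfl⟩ := cast_of_lt h q hq6
  have e := swRank_cast h v p₀ q₀
  have e1 : swRank v p₀ q₀ + 1 = swRank (ext6 h v) (Fin.castLE h p₀) (Fin.castLE h q₀) + 1 := by
    rw [e]
  refine ⟨_, ⟨p₀, q₀, fun a => ⟨(r (Fin.cast e1 a)).val, hr6 _⟩,
    fun b => ⟨(c (Fin.cast e1 b)).val, hc6 _⟩, ?_, ?_, ?_, ?_, rfl⟩, ?_⟩
  · intro a b hab
    exact hr (show Fin.cast e1 a < Fin.cast e1 b from hab)
  · intro a b hab
    exact hc (show Fin.cast e1 a < Fin.cast e1 b from hab)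
  · intro a
    exact hpr _
  · intro b
    exact hcq _
  · rw [AlgHom.map_det]
    rw [← Matrix.det_submatrix_equiv_self (finCongr e1)]
    congr 1
    ext1 a b
    rw [Matrix.submatrix_apply, AlgHom.mapMatrix_apply, Matrix.map_apply, Matrix.submatrix_apply,
      Matrix.submatrix_apply, ← Z_cast]
    rfl

/-- For every `n ≥ 6` the defining determinants are not a Groebner basis for the extended
permutations, for every graded order. -/
theorem not_groebner (k : Type*) [Field k] (m : MonomialOrder (Var (ext6 h u₀)))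
    (hm : Graded m) :
    ¬ IsGroebnerBasis m (definingDets k (ext6 h u₀) (ext6 h v₀))
      (KLIdeal k (ext6 h u₀) (ext6 h v₀)) := by
  refine core_abs m hm _ (newVar h u₀) (fun i => io h u₀ (av i))
    ((io_inj h u₀).comp av_inj) ?_ ?_ ?_ ?_
  · intro i hi
    have h1 : 6 ≤ ((io h u₀ (av i)).1.1).val := hi
    have h2 : ((io h u₀ (av i)).1.1).val < 6 := (av i).1.1.2
    omega
  · rw [← rename_P1]
    exact rename_mem h k u₀ v₀ _ (big_mem k)
  · rw [← rename_P2]
    exact rename_mem h k u₀ v₀ _ (small_mem k)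
  · intro g hg
    rcases mem_cases h k u₀ v₀ g hg with ⟨g₀, hg₀, rfl⟩ | hJ
    · rcases mem_definingDets k hg₀ with rfl | rfl
      · left
        exact rename_P1 h k
      · right; left
        exact rename_P2 h k
    · right; right
      intro d hd
      rw [mem_ideal_span_X_image] at hJ
      exact hJ d hd

end Pool.Agent.Y825.KL
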